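import Pool.Agent.Q20.SkewPA.Gam

/-!
# The group `C₁₅ ⋊ C₄` acts on `PSL₁₅(16)` by outer automorphisms

The generator of `C₁₅` acts as conjugation by `diag(ζ, 1, ..., 1)`, the generator of `C₄` as the
Frobenius automorphism.
-/

set_option autoImplicit false

open Matrix

namespace Q20.SkewPA

/-- The field with sixteen elements. -/
abbrev K : Type := GaloisField 2 4

/-- The special linear group of degree fifteen over the field with sixteen elements. -/
abbrev SL : Type := Matrix.SpecialLinearGroup (Fin 15) K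

/-- The simple group `PSL₁₅(16)`. -/
abbrev PSL : Type := Matrix.ProjectiveSpecialLinearGroup (Fin 15) K

lemma card_K : Nat.card K = 16 := by
  rw [GaloisField.card 2 4 (by norm_num)]
  norm_num

noncomputable instance : Fintype K := Fintype.ofFinite K

lemma fcard_K : Fintype.card K = 16 := by
  rw [← Nat.card_eq_fintype_card, card_K]

noncomputable instance : DecidableEq K := Classical.decEq K

lemma pow_sixteen (x : K) : x ^ 16 = x := by
  have h := FiniteField.pow_card x
  rwa [fcard_K] at h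

/-- A primitive fifteenth root of unity exists. -/
lemma exists_zeta : ∃ z : Kˣ, orderOf z = 15 := by
  obtain ⟨z, hz⟩ := IsCyclic.exists_ofOrder_eq_natCard (α := Kˣ)
  refine ⟨z, ?_⟩
  rw [hz, Nat.card_units, card_K]

/-- A primitive fifteenth root of unity. -/
noncomputable def zeta : Kˣ := exists_zeta.choose

lemma orderOf_zeta : orderOf zeta = 15 := exists_zeta.choose_spec

lemma zeta_pow : zeta ^ 15 = 1 := by
  rw [← orderOf_zeta]
  exact pow_orderOf_eq_one _

/-! ### Diagonal automorphisms -/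

/-- The diagonal matrix `diag(u, 1, ..., 1)`. -/
noncomputable def dg (u : K) : Matrix (Fin 15) (Fin 15) K :=
  diagonal fun i => if i = 0 then u else 1

lemma dg_one : dg 1 = 1 := by
  rw [dg, ← diagonal_one]
  congr 1
  funext i
  split_ifs <;> rfl

lemma dg_mul (u v : K) : dg u * dg v = dg (u * v) := by
  rw [dg, dg, dg, diagonal_mul_diagonal]
  congr 1
  funext i
  split_ifs
  · rfl
  · exact one_mul 1

lemma det_dg (u : K) : (dg u).det = u := by
  rw [dg, det_diagonal, Finset.prod_ite_eq' Finset.univ (0 : Fin 15) (fun _ => u)]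
  simp

/-- Conjugation by `diag(u, 1, ..., 1)`. -/
noncomputable def cj (u : Kˣ) : MulAut SL where
  toFun M := ⟨dg u * M.1 * dg ((u⁻¹ : Kˣ) : K), by
    rw [det_mul, det_mul, det_dg, det_dg, M.2, mul_one, Units.mul_inv]⟩
  invFun M := ⟨dg ((u⁻¹ : Kˣ) : K) * M.1 * dg u, by
    rw [det_mul, det_mul, det_dg, det_dg, M.2, mul_one, Units.inv_mul]⟩
  left_inv M := by
    apply Subtype.ext
    change dg ((u⁻¹ : Kˣ) : K) * (dg u * M.1 * dg ((u⁻¹ : Kˣ) : K)) * dg u = M.1
    have h1 : dg ((u⁻¹ : Kˣ) : K) * dg u = 1 := by rw [dg_mul, Units.inv_mul, dg_one]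
    rw [mul_assoc (dg (u : K)), ← mul_assoc (dg ((u⁻¹ : Kˣ) : K)), h1, one_mul, mul_assoc, h1,
      mul_one]
  right_inv M := by
    apply Subtype.ext
    change dg u * (dg ((u⁻¹ : Kˣ) : K) * M.1 * dg u) * dg ((u⁻¹ : Kˣ) : K) = M.1
    have h1 : dg u * dg ((u⁻¹ : Kˣ) : K) = 1 := by rw [dg_mul, Units.mul_inv, dg_one]
    rw [mul_assoc (dg ((u⁻¹ : Kˣ) : K)), ← mul_assoc (dg (u : K)), h1, one_mul, mul_assoc, h1,
      mul_one]
  map_mul' M N := by
    apply Subtype.ext
    change dg u * (M.1 * N.1) * dg ((u⁻¹ : Kˣ) : K) =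
      dg u * M.1 * dg ((u⁻¹ : Kˣ) : K) * (dg u * N.1 * dg ((u⁻¹ : Kˣ) : K))
    have h1 : dg ((u⁻¹ : Kˣ) : K) * dg u = 1 := by rw [dg_mul, Units.inv_mul, dg_one]
    rw [mul_assoc (dg u * M.1), ← mul_assoc (dg ((u⁻¹ : Kˣ) : K)),
      ← mul_assoc (dg ((u⁻¹ : Kˣ) : K)), h1, one_mul]
    simp only [mul_assoc]

lemma cj_coe (u : Kˣ) (M : SL) : (cj u M).1 = dg u * M.1 * dg ((u⁻¹ : Kˣ) : K) := rfl

lemma cj_mul (u v : Kˣ) : cj (u * v) = cj u * cj v := by
  apply MulEquiv.ext
  intro M
  apply Subtype.ext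
  change dg ((u * v : Kˣ) : K) * M.1 * dg (((u * v)⁻¹ : Kˣ) : K) =
    dg u * (dg v * M.1 * dg ((v⁻¹ : Kˣ) : K)) * dg ((u⁻¹ : Kˣ) : K)
  rw [_root_.mul_inv_rev, Units.val_mul, Units.val_mul, ← dg_mul, ← dg_mul]
  simp only [mul_assoc]

lemma cj_one : cj 1 = 1 := by
  apply MulEquiv.ext
  intro M
  apply Subtype.ext
  change dg ((1 : Kˣ) : K) * M.1 * dg (((1 : Kˣ)⁻¹ : Kˣ) : K) = M.1
  rw [inv_one, Units.val_one, dg_one, one_mul, mul_one]

/-- The diagonal automorphisms as a homomorphism. -/
noncomputable def cjHom : Kˣ →* MulAut SL where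
  toFun := cj
  map_one' := cj_one
  map_mul' := cj_mul

/-! ### The Frobenius automorphism -/

/-- The Frobenius automorphism of the field. -/
noncomputable def fr : K ≃+* K := frobeniusEquiv K 2

lemma fr_apply (x : K) : fr x = x ^ 2 := rfl

/-- The automorphism of the special linear group given by an automorphism of the field. -/
noncomputable def mp (e : K ≃+* K) : MulAut SL where
  toFun := Matrix.SpecialLinearGroup.map (e : K →+* K)
  invFun := Matrix.SpecialLinearGroup.map (e.symm : K →+* K)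
  left_inv M := by
    apply Matrix.SpecialLinearGroup.ext
    intro i j
    exact e.symm_apply_apply _
  right_inv M := by
    apply Matrix.SpecialLinearGroup.ext
    intro i j
    exact e.apply_symm_apply _
  map_mul' M N := map_mul _ _ _

lemma mp_apply (e : K ≃+* K) (M : SL) (i j : Fin 15) : (mp e M).1 i j = e (M.1 i j) := rfl

/-- The Frobenius automorphism of the special linear group. -/
noncomputable def frSL : MulAut SL := mp fr

lemma frSL_pow_apply (n : ℕ) (M : SL) (i j : Fin 15) :
    ((frSL ^ n) M).1 i j = (M.1 i j) ^ (2 ^ n) := by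
  induction n generalizing M with
  | zero => simp
  | succ n ih =>
    rw [pow_succ, MulAut.mul_apply, ih]
    change (fr (M.1 i j)) ^ (2 ^ n) = _
    rw [fr_apply, ← pow_mul, pow_succ 2 n, mul_comm]

lemma frSL_pow : frSL ^ 4 = 1 := by
  apply MulEquiv.ext
  intro M
  apply Matrix.SpecialLinearGroup.ext
  intro i j
  rw [frSL_pow_apply]
  exact pow_sixteen _

lemma frSL_cj (u : Kˣ) : frSL * cj u * frSL⁻¹ = cj u ^ 2 := by
  rw [mul_inv_eq_iff_eq_mul]
  apply MulEquiv.ext
  intro M
  have h1 : cj u ^ 2 = cj (u ^ 2) := by rw [pow_two, pow_two, cj_mul]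
  rw [h1]
  apply Subtype.ext
  change (mp fr (cj u M)).1 = dg ((u ^ 2 : Kˣ) : K) * (mp fr M).1 * dg (((u ^ 2)⁻¹ : Kˣ) : K)
  have h2 : ∀ v : K, (dg v).map fr = dg (v ^ 2) := by
    intro v
    rw [dg, dg, diagonal_map (map_zero _)]
    congr 1
    funext i
    change fr (if i = 0 then v else 1) = _
    split_ifs
    · rfl
    · exact map_one _
  have h3 : (mp fr (cj u M)).1 = (dg u * M.1 * dg ((u⁻¹ : Kˣ) : K)).map fr := rfl
  have h4 : (mp fr M).1 = M.1.map fr := rfl
  have h5 : ∀ A B : Matrix (Fin 15) (Fin 15) K, (A * B).map fr = A.map fr * B.map fr :=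
    fun A B => Matrix.map_mul (f := (fr : K →+* K))
  rw [h3, h4, h5, h5, h2, h2, Units.val_pow_eq_pow_val, ← inv_pow, Units.val_pow_eq_pow_val]

/-! ### The action on the simple group -/

/-- The automorphisms of a group act on its quotient by the centre. -/
noncomputable def autQ {G : Type*} [Group G] : MulAut G →* MulAut (G ⧸ Subgroup.center G) where
  toFun e := QuotientGroup.congr _ _ e
    (Subgroup.characteristic_iff_map_eq.1 inferInstance e)
  map_one' := by
    apply MulEquiv.ext
    intro x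
    induction x using QuotientGroup.induction_on with
    | H x => rfl
  map_mul' e f := by
    apply MulEquiv.ext
    intro x
    induction x using QuotientGroup.induction_on with
    | H x => rfl

lemma autQ_mk {G : Type*} [Group G] (e : MulAut G) (x : G) :
    autQ e (x : G ⧸ Subgroup.center G) = (e x : G) := rfl

/-- The action of `C₁₅ ⋊ C₄` on the special linear group. -/
noncomputable def actSL : Gam →* MulAut SL :=
  Gam.homOf (cj zeta) frSL
    (by
      have h : cjHom zeta ^ 15 = 1 := by rw [← map_pow, zeta_pow, map_one]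
      exact h)
    frSL_pow (frSL_cj zeta)

/-- The action of `C₁₅ ⋊ C₄` on the simple group `PSL₁₅(16)`. -/
noncomputable def act : Gam →* MulAut PSL := (autQ (G := SL)).comp actSL

lemma actSL_apply (g : Gam) (M : SL) :
    (actSL g M).1 = dg ((zeta ^ g.i.val : Kˣ) : K) * ((frSL ^ g.j.val) M).1 *
      dg (((zeta ^ g.i.val)⁻¹ : Kˣ) : K) := by
  have h1 : actSL g = cj (zeta ^ g.i.val) * frSL ^ g.j.val := by
    change cj zeta ^ g.i.val * frSL ^ g.j.val = _
    congr 1
    exact (map_pow cjHom zeta g.i.val).symm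
  rw [h1, MulAut.mul_apply, cj_coe]

end Q20.SkewPA
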