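import Mathlib

/-!
# The group `C₁₅ ⋊ C₄ ≅ ΓL₁(16)` acts regularly on the alternating group `A₅`

The action is `x ↦ a x b⁻¹`, where `(a, b)` runs over the pairs of permutations of the same sign in
the exact factorization `S₅ = F₂₀ · S₃`.
-/

set_option autoImplicit false

namespace Q20.SkewPA

/-- The group `C₁₅ ⋊ C₄`, where the generator of `C₄` acts on `C₁₅` by doubling. -/
@[ext]
structure Gam where
  /-- the component in `C₁₅` -/
  i : ZMod 15
  /-- the component in `C₄` -/
  j : ZMod 4
  deriving DecidableEq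

namespace Gam

/-- The power `2 ^ j`, `j` in `ZMod 4`, in `ZMod 15`. -/
def two (j : ZMod 4) : ZMod 15 := (2 : ZMod 15) ^ j.val

lemma two_add : ∀ j j' : ZMod 4, two (j + j') = two j * two j' := by decide

lemma two_zero : two 0 = 1 := by decide

lemma two_neg (j : ZMod 4) : two (-j) * two j = 1 := by
  rw [← two_add, neg_add_cancel, two_zero]

instance : Group Gam where
  mul g h := ⟨g.i + two g.j * h.i, g.j + h.j⟩
  one := ⟨0, 0⟩
  inv g := ⟨-(two (-g.j) * g.i), -g.j⟩
  mul_assoc g h l := by
    apply Gam.ext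
    · change g.i + two g.j * h.i + two (g.j + h.j) * l.i =
        g.i + two g.j * (h.i + two h.j * l.i)
      rw [two_add]; ring
    · exact add_assoc _ _ _
  one_mul g := by
    apply Gam.ext
    · change 0 + two 0 * g.i = g.i
      rw [two_zero]; ring
    · exact zero_add _
  mul_one g := by
    apply Gam.ext
    · change g.i + two g.j * 0 = g.i
      ring
    · exact add_zero _
  inv_mul_cancel g := by
    apply Gam.ext
    · change -(two (-g.j) * g.i) + two (-g.j) * g.i = 0
      ring
    · exact neg_add_cancel _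

lemma mul_i (g h : Gam) : (g * h).i = g.i + two g.j * h.i := rfl
lemma mul_j (g h : Gam) : (g * h).j = g.j + h.j := rfl
lemma one_i : (1 : Gam).i = 0 := rfl
lemma one_j : (1 : Gam).j = 0 := rfl

/-- `Gam` as a product of types. -/
def equivProd : Gam ≃ ZMod 15 × ZMod 4 where
  toFun g := (g.i, g.j)
  invFun x := ⟨x.1, x.2⟩
  left_inv _ := rfl
  right_inv _ := rfl

instance : Fintype Gam := Fintype.ofEquiv _ equivProd.symm

lemma card : Fintype.card Gam = 60 := by
  rw [Fintype.card_congr equivProd, Fintype.card_prod, ZMod.card, ZMod.card]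

section hom

variable {H : Type*} [Group H] (c f : H)

lemma pow_mod15 (hc : c ^ 15 = 1) (n : ℕ) : c ^ (n % 15) = c ^ n := by
  conv_rhs => rw [← Nat.div_add_mod n 15, pow_add, pow_mul, hc, one_pow, one_mul]

lemma pow_mod4 (hf : f ^ 4 = 1) (n : ℕ) : f ^ (n % 4) = f ^ n := by
  conv_rhs => rw [← Nat.div_add_mod n 4, pow_add, pow_mul, hf, one_pow, one_mul]

lemma conj_pow (hcf : f * c * f⁻¹ = c ^ 2) (n m : ℕ) :
    f ^ n * c ^ m = c ^ (2 ^ n * m) * f ^ n := by
  induction n generalizing m with
  | zero => simp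
  | succ n ih =>
    have h1 : ∀ m : ℕ, f * c ^ m = c ^ (2 * m) * f := by
      intro m
      have h2 : (f * c * f⁻¹) ^ m = f * c ^ m * f⁻¹ := by
        rw [← MulAut.conj_apply, ← map_pow, MulAut.conj_apply]
      rw [hcf] at h2
      rw [pow_mul, h2, inv_mul_cancel_right]
    rw [pow_succ, mul_assoc, h1, ← mul_assoc, ih, mul_assoc, ← pow_succ, pow_succ 2 n, mul_assoc]

/-- The homomorphism from `Gam` to `H` given by elements which satisfy the relations. -/
def homOf (hc : c ^ 15 = 1) (hf : f ^ 4 = 1) (hcf : f * c * f⁻¹ = c ^ 2) : Gam →* H where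
  toFun g := c ^ g.i.val * f ^ g.j.val
  map_one' := by
    change c ^ (0 : ZMod 15).val * f ^ (0 : ZMod 4).val = 1
    simp
  map_mul' g h := by
    change c ^ (g.i + two g.j * h.i).val * f ^ (g.j + h.j).val =
      c ^ g.i.val * f ^ g.j.val * (c ^ h.i.val * f ^ h.j.val)
    have h1 : c ^ (g.i + two g.j * h.i).val = c ^ g.i.val * c ^ (2 ^ g.j.val * h.i.val) := by
      rw [ZMod.val_add, pow_mod15 c hc, pow_add, ZMod.val_mul, pow_mod15 c hc]
      congr 1
      have h2 : (two g.j).val = 2 ^ g.j.val % 15 := by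
        have h3 : ∀ j : ZMod 4, (two j).val = 2 ^ j.val % 15 := by decide
        exact h3 _
      rw [h2, pow_mul, pow_mul, pow_mod15 c hc]
    rw [h1, ZMod.val_add, pow_mod4 f hf, pow_add]
    rw [mul_assoc, mul_assoc, ← mul_assoc (f ^ g.j.val), conj_pow c f hcf, mul_assoc]

lemma homOf_apply (hc : c ^ 15 = 1) (hf : f ^ 4 = 1) (hcf : f * c * f⁻¹ = c ^ 2) (g : Gam) :
    homOf c f hc hf hcf g = c ^ g.i.val * f ^ g.j.val := rfl

end hom

end Gam

/-! ### The permutations -/

/-- The 5-cycle `x ↦ x + 1`. -/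
def cA : Equiv.Perm (Fin 5) where
  toFun := ![1, 2, 3, 4, 0]
  invFun := ![4, 0, 1, 2, 3]
  left_inv := by decide
  right_inv := by decide

/-- The 4-cycle `x ↦ 2 x`. -/
def fA : Equiv.Perm (Fin 5) where
  toFun := ![0, 2, 4, 1, 3]
  invFun := ![0, 3, 1, 4, 2]
  left_inv := by decide
  right_inv := by decide

/-- The 3-cycle `(2 3 4)`. -/
def cB : Equiv.Perm (Fin 5) where
  toFun := ![0, 1, 3, 4, 2]
  invFun := ![0, 1, 4, 2, 3]
  left_inv := by decide
  right_inv := by decide

/-- The transposition `(3 4)`. -/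
def fB : Equiv.Perm (Fin 5) where
  toFun := ![0, 1, 2, 4, 3]
  invFun := ![0, 1, 2, 4, 3]
  left_inv := by decide
  right_inv := by decide

/-- The homomorphism from `Gam` onto `F₂₀`. -/
def homA : Gam →* Equiv.Perm (Fin 5) := Gam.homOf cA fA (by decide) (by decide) (by decide)

/-- The homomorphism from `Gam` onto `S₃`, which fixes `0` and `1`. -/
def homB : Gam →* Equiv.Perm (Fin 5) := Gam.homOf cB fB (by decide) (by decide) (by decide)

lemma sign_cA : Equiv.Perm.sign cA = 1 := by decide
lemma sign_cB : Equiv.Perm.sign cB = 1 := by decide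
lemma sign_fA : Equiv.Perm.sign fA = -1 := by decide
lemma sign_fB : Equiv.Perm.sign fB = -1 := by decide

lemma sign_homA (g : Gam) : Equiv.Perm.sign (homA g) = Equiv.Perm.sign (homB g) := by
  rw [homA, homB, Gam.homOf_apply, Gam.homOf_apply, map_mul, map_mul, map_pow, map_pow, map_pow,
    map_pow, sign_cA, sign_cB, sign_fA, sign_fB]

lemma eq_one_of_hom_eq : ∀ (i : ZMod 15) (j : ZMod 4),
    cA ^ i.val * fA ^ j.val = cB ^ i.val * fB ^ j.val → i = 0 ∧ j = 0 := by
  decide +kernel

/-- The bijection `g ↦ a(g) b(g)⁻¹` onto the alternating group. -/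
def toAlt (g : Gam) : alternatingGroup (Fin 5) :=
  ⟨homA g * (homB g)⁻¹, by
    rw [Equiv.Perm.mem_alternatingGroup, map_mul, map_inv, sign_homA, mul_inv_cancel]⟩

lemma toAlt_coe (g : Gam) : (toAlt g : Equiv.Perm (Fin 5)) = homA g * (homB g)⁻¹ := rfl

lemma toAlt_injective : Function.Injective toAlt := by
  intro g h hgh
  have h1 : homA g * (homB g)⁻¹ = homA h * (homB h)⁻¹ := congrArg Subtype.val hgh
  have h2 : homA (h⁻¹ * g) = homB (h⁻¹ * g) := by
    rw [map_mul, map_mul, map_inv, map_inv]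
    have h3 : homA g = homA h * (homB h)⁻¹ * homB g := by
      rw [← h1, inv_mul_cancel_right]
    rw [h3]
    group
  obtain ⟨h4, h5⟩ := eq_one_of_hom_eq _ _ h2
  have h6 : h⁻¹ * g = 1 := Gam.ext h4 h5
  exact (inv_mul_eq_one.1 h6).symm

lemma card_alt : Fintype.card (alternatingGroup (Fin 5)) = 60 := by
  have h := two_mul_card_alternatingGroup (α := Fin 5)
  rw [Fintype.card_perm, Fintype.card_fin] at h
  have : Nat.factorial 5 = 120 := rfl
  omega

lemma toAlt_bijective : Function.Bijective toAlt :=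
  (Fintype.bijective_iff_injective_and_card _).2
    ⟨toAlt_injective, by rw [Gam.card, card_alt]⟩

/-- The bijection as an equivalence. -/
noncomputable def altEquiv : Gam ≃ alternatingGroup (Fin 5) := Equiv.ofBijective _ toAlt_bijective

lemma altEquiv_coe (g : Gam) : (altEquiv g : Equiv.Perm (Fin 5)) = homA g * (homB g)⁻¹ := rfl

/-- The brace relation for the second component. -/
lemma alt_brace (g u v w : Gam) (h : altEquiv w = altEquiv u * altEquiv v) :
    altEquiv (g * w) = altEquiv (g * u) * (altEquiv g)⁻¹ * altEquiv (g * v) := by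
  apply Subtype.ext
  have h1 : homA w * (homB w)⁻¹ = homA u * (homB u)⁻¹ * (homA v * (homB v)⁻¹) :=
    congrArg Subtype.val h
  rw [Subgroup.coe_mul, Subgroup.coe_mul, Subgroup.coe_inv, altEquiv_coe, altEquiv_coe,
    altEquiv_coe, altEquiv_coe, map_mul, map_mul, map_mul, map_mul, map_mul, map_mul]
  have h2 : homA g * homA w * (homB g * homB w)⁻¹ =
      homA g * (homA w * (homB w)⁻¹) * (homB g)⁻¹ := by group
  rw [h2, h1]
  group

end Q20.SkewPA
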