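import Pool.Agent.Q20.SkewPA.Aut

/-!
# The nontrivial elements of `C₁₅ ⋊ C₄` act on `PSL₁₅(16)` by outer automorphisms
-/

set_option autoImplicit false

open Matrix

namespace Q20.SkewPA

lemma fifteen : (15 : K) = 1 := by
  have h : (2 : K) = 0 := CharTwo.two_eq_zero
  have h1 : (15 : K) = 2 * 7 + 1 := by norm_num
  rw [h1, h, zero_mul, zero_add]

/-- The transvection matrix with entry `t` in position `(k, l)`. -/
noncomputable def tv {k l : Fin 15} (h : k ≠ l) (t : K) : SL :=
  Matrix.SpecialLinearGroup.transvection h t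

lemma tv_coe {k l : Fin 15} (h : k ≠ l) (t : K) : (tv h t).1 = 1 + single k l t :=
  Matrix.SpecialLinearGroup.transvection_coe h t

lemma fr_tv {k l : Fin 15} (h : k ≠ l) (t : K) (n : ℕ) :
    ((frSL ^ n) (tv h t)).1 = 1 + single k l (t ^ 2 ^ n) := by
  ext a b
  rw [frSL_pow_apply, tv_coe, Matrix.add_apply, Matrix.add_apply, Matrix.one_apply]
  by_cases hab : a = b
  · subst hab
    have h1 : single k l t a a = 0 := by
      rw [Matrix.single_apply, if_neg]
      rintro ⟨rfl, rfl⟩
      exact h rfl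
    have h2 : single k l (t ^ 2 ^ n) a a = 0 := by
      rw [Matrix.single_apply, if_neg]
      rintro ⟨rfl, rfl⟩
      exact h rfl
    rw [h1, h2, if_pos rfl, add_zero, one_pow]
  · rw [if_neg hab, zero_add, zero_add, Matrix.single_apply, Matrix.single_apply]
    split_ifs
    · rfl
    · exact zero_pow (by positivity)

lemma cm (A B : SL) : (A * B).1 = A.1 * B.1 := rfl

lemma c1 : (1 : SL).1 = 1 := rfl

lemma trace_tv {k l : Fin 15} (h : k ≠ l) (t : K) :
    (1 + single k l t : Matrix (Fin 15) (Fin 15) K).trace = 1 := by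
  rw [trace_add, trace_one, trace_single_eq_of_ne _ _ _ h, add_zero, Fintype.card_fin]
  exact_mod_cast fifteen

/-- If an element acts as an inner automorphism, then it is trivial. -/
theorem eq_one_of_inner (g : Gam) (s : PSL) (h : ∀ t, act g t = s⁻¹ * t * s) : g = 1 := by
  obtain ⟨N, rfl⟩ := QuotientGroup.mk_surjective s
  set z : Kˣ := zeta ^ g.i.val with hz
  set n : ℕ := g.j.val with hn
  -- the basic equation
  have key : ∀ (k l : Fin 15) (hkl : k ≠ l) (t : K),
      N.1 * dg z * single k l (t ^ 2 ^ n) = single k l t * (N.1 * dg z) := by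
    intro k l hkl t
    have h1 := h ((tv hkl t : SL) : PSL)
    have h2 : ((actSL g (tv hkl t) : SL) : PSL) = ((N⁻¹ * tv hkl t * N : SL) : PSL) := h1
    rw [eq_comm, QuotientGroup.eq, Matrix.SpecialLinearGroup.mem_center_iff] at h2
    obtain ⟨r, -, hr⟩ := h2
    have h3 : (actSL g (tv hkl t)).1 = (N⁻¹ * tv hkl t * N).1 * scalar (Fin 15) r := by
      rw [hr]
      have h4 := congrArg Subtype.val (mul_inv_cancel_left (N⁻¹ * tv hkl t * N)
        (actSL g (tv hkl t)))
      exact h4.symm
    have hAi : N.1 * (N⁻¹).1 = 1 := by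
      have h4 := congrArg Subtype.val (mul_inv_cancel N)
      exact h4
    have hiA : (N⁻¹).1 * N.1 = 1 := by
      have h4 := congrArg Subtype.val (inv_mul_cancel N)
      exact h4
    have hU : dg ((z⁻¹ : Kˣ) : K) * dg z = 1 := by rw [dg_mul, Units.inv_mul, dg_one]
    have hU' : dg (z : K) * dg ((z⁻¹ : Kˣ) : K) = 1 := by rw [dg_mul, Units.mul_inv, dg_one]
    have h3' : (N⁻¹ * tv hkl t * N).1 = (N⁻¹).1 * (tv hkl t).1 * N.1 := rfl
    rw [h3', actSL_apply, fr_tv, tv_coe] at h3
    have h4 := congrArg Matrix.trace h3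
    rw [Matrix.trace_mul_cycle, hU, one_mul, trace_tv hkl] at h4
    have h5 : ∀ X : Matrix (Fin 15) (Fin 15) K, X * scalar (Fin 15) r = r • X := by
      intro X
      rw [scalar_apply, smul_eq_mul_diagonal]
    rw [h5, trace_smul, Matrix.trace_mul_cycle, hAi, one_mul, trace_tv hkl,
      smul_eq_mul, mul_one] at h4
    rw [← h4, map_one, mul_one, mul_add, add_mul, mul_one, hU', mul_add, add_mul, mul_one,
      hiA, add_right_inj] at h3
    calc N.1 * dg z * single k l (t ^ 2 ^ n)
        = N.1 * (dg z * single k l (t ^ 2 ^ n) * dg ((z⁻¹ : Kˣ) : K)) * dg z := by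
          simp only [mul_assoc, hU, mul_one]
      _ = N.1 * ((N⁻¹).1 * single k l t * N.1) * dg z := by rw [h3]
      _ = single k l t * (N.1 * dg z) := by
          rw [← mul_assoc, ← mul_assoc, hAi, one_mul, mul_assoc]
  have hcomm : Pairwise fun k l : Fin 15 => Commute (single k l (1 : K)) (N.1 * dg z) := by
    intro k l hkl
    have h1 := key k l hkl 1
    rw [one_pow] at h1
    exact h1.symm
  obtain ⟨μ, hμ⟩ := mem_range_scalar_of_commute_single hcomm
  have hdet : μ ^ 15 = z := by
    have h1 := congrArg Matrix.det hμ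
    rw [scalar_apply, det_diagonal, Finset.prod_const, Finset.card_univ, Fintype.card_fin,
      det_mul, N.2, one_mul, det_dg] at h1
    exact h1
  have hμ0 : μ ≠ 0 := by
    rintro rfl
    rw [zero_pow (by norm_num)] at hdet
    exact z.ne_zero hdet.symm
  have hz1 : (z : K) = 1 := by
    rw [← hdet]
    have h1 := pow_sixteen μ
    have h2 : μ * μ ^ 15 = μ * 1 := by rw [mul_one, ← pow_succ']; exact h1
    exact mul_left_cancel₀ hμ0 h2
  have hi : g.i = 0 := by
    have h1 : zeta ^ g.i.val = 1 := Units.ext hz1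
    have h2 := orderOf_dvd_of_pow_eq_one h1
    rw [orderOf_zeta] at h2
    have h3 : g.i.val < 15 := ZMod.val_lt _
    have h4 : g.i.val = 0 := Nat.eq_zero_of_dvd_of_lt h2 h3
    exact (ZMod.val_eq_zero _).1 h4
  have hj : g.j = 0 := by
    have h1 := key 0 1 (by decide) (zeta : K)
    rw [← hμ, scalar_apply, ← smul_eq_diagonal_mul, ← smul_eq_mul_diagonal] at h1
    have h2 := congrFun (congrFun h1 0) 1
    have h3 : μ * (zeta : K) ^ 2 ^ n = μ * zeta := by
      simpa [Matrix.smul_apply, Matrix.single_apply] using h2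
    have h4 := mul_left_cancel₀ hμ0 h3
    have h5 : zeta ^ 2 ^ n = zeta ^ 1 := by
      rw [pow_one]
      exact Units.ext h4
    rw [pow_eq_pow_iff_modEq, orderOf_zeta] at h5
    have h6 : ∀ j : ZMod 4, 2 ^ j.val % 15 = 1 % 15 → j = 0 := by decide
    exact h6 _ h5
  exact Gam.ext hi hj

end Q20.SkewPA
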